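import Pool.Agent.Helper9.UP.StW

/-!
# Project UP, module LS (the lower step)
-/

set_option autoImplicit false

noncomputable section

namespace Pool.Agent.Helper92.UP

open Finset Polynomial
open Pool.Agent.Helper9.UP
open Pool.Agent.Helper9.TW (gm)

private theorem reg_mono {ε ε' X ω : ℝ} {j0 Nm : ℕ} {g : ℕ → ℝ} (h : ε ≤ ε')
    (hr : Reg ε X ω j0 Nm g) : Reg ε' X ω j0 Nm g :=
  ⟨hr.1, hr.2.1, fun i h1 h2 => (hr.2.2 i h1 h2).trans h⟩

private theorem pr_succ {X ω : ℝ} {j0 j : ℕ} (hj : j0 ≤ j) (p : ℕ) :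
    p ∈ Pr X ω j0 (j + 1) ↔ p ∈ Pr X ω j0 j ∨ p ∈ bx X ω j := by
  unfold Pr
  simp only [Finset.mem_biUnion, Finset.mem_Ico]
  constructor
  · rintro ⟨i, ⟨h1, h2⟩, h3⟩
    rcases Nat.lt_succ_iff_lt_or_eq.1 h2 with h | h
    · exact Or.inl ⟨i, ⟨h1, h⟩, h3⟩
    · exact Or.inr (h ▸ h3)
  · rintro (⟨i, ⟨h1, h2⟩, h3⟩ | h)
    · exact ⟨i, ⟨h1, by omega⟩, h3⟩
    · exact ⟨j, ⟨hj, by omega⟩, h⟩

theorem hLS (hB : StWB) : StLS := by
  intro ω j0 Nm N j μ μ' hω hj0 hj hN hNm hN2 hLo hUp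
  obtain ⟨B1, hB1, hLo⟩ := hLo
  obtain ⟨B2, hB2, hUp⟩ := hUp
  refine ⟨B1 + B2, by positivity, fun η hη => ?_⟩
  set η2 : ℝ := η / (3 * (|gm j| + 2)) with hη2
  have hη2p : 0 < η2 := by positivity
  obtain ⟨ε1, hε1, hLo⟩ := hLo (η / 3) (by positivity)
  obtain ⟨ε2, hε2, hUp⟩ := hUp η2 hη2p
  set ε : ℝ := min (min ε1 ε2) (min 1 (η / (3 * (|μ'| + 1)))) with hε
  have hεp : 0 < ε := lt_min (lt_min hε1 hε2) (lt_min one_pos (by positivity))
  have hεa : ε ≤ ε1 := (min_le_left _ _).trans (min_le_left _ _)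
  have hεb : ε ≤ ε2 := (min_le_left _ _).trans (min_le_right _ _)
  have hεc : ε ≤ 1 := (min_le_right _ _).trans (min_le_left _ _)
  have hεd : ε ≤ η / (3 * (|μ'| + 1)) := (min_le_right _ _).trans (min_le_right _ _)
  refine ⟨ε, hεp, fun X g hreg => ?_⟩
  obtain ⟨l1, hW1, hs1, hm1⟩ := hLo X g (reg_mono hεa hreg)
  obtain ⟨l2, hW2, hs2, hm2⟩ := hUp X g (reg_mono hεb hreg)
  obtain ⟨hX, hg, hbox⟩ := hreg
  have hcast : ((N - (j + 1) : ℕ) : ℝ) = (N : ℝ) - ((j : ℝ) + 1) := by
    rw [Nat.cast_sub (by omega)]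
    push_cast
    ring
  have hlev : ((N - (j + 1) : ℕ) : ℝ) * ω + ((j : ℝ) + 1) * ω = (N : ℝ) * ω := by
    rw [hcast]
    ring
  obtain ⟨hWb, hmb, hsb⟩ := hB X ω (((N - (j + 1) : ℕ) : ℝ) * ω) B2 j0 j j g l2 hX hω
    (by positivity) hB2 hj le_rfl hW2
  rw [hlev] at hWb hmb
  have hmb := hmb hN2
  refine ⟨fun q => l1 q - bm X ω j l2 q, ?_, ?_, ?_⟩
  · intro q
    refine ⟨?_, ?_⟩
    · calc |l1 q - bm X ω j l2 q| ≤ |l1 q| + |bm X ω j l2 q| := abs_sub _ _
        _ ≤ B1 + B2 := add_le_add (hW1 q).1 (hWb q).1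
    · intro hne
      by_cases h1 : l1 q = 0
      · have h2 : bm X ω j l2 q ≠ 0 := by
          intro h2
          apply hne
          show l1 q - bm X ω j l2 q = 0
          rw [h1, h2, sub_zero]
        exact (hWb q).2 h2
      · obtain ⟨⟨hsq, hp⟩, hle⟩ := (hW1 q).2 h1
        exact ⟨⟨hsq, fun p hpp hpq => (pr_succ hj p).2 (Or.inl (hp p hpp hpq))⟩, hle⟩
  · intro n hn
    rw [Finset.sum_sub_distrib, hsb n hn]
    have h1 := hs1 n hn
    have h2 := hs2 n hn
    have h3 : (0 : ℝ) ≤ (ej X ω j n : ℝ) := by positivity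
    have h4 : (ej X ω j n : ℝ) * ind X ω j0 j n ≤
        (ej X ω j n : ℝ) * ∑ q ∈ n.divisors, l2 q := mul_le_mul_of_nonneg_left h2 h3
    have h5 : ind X ω j0 j n - (ej X ω j n : ℝ) * ind X ω j0 j n ≤ ind X ω j0 (j + 1) n := by
      have h0 : 0 ≤ ind X ω j0 (j + 1) n := by
        unfold ind
        split_ifs <;> norm_num
      by_cases hI : ∃ p ∈ Pr X ω j0 j, p ∣ n
      · have : ind X ω j0 j n = 0 := by unfold ind; rw [if_pos hI]
        rw [this]
        simpa using h0
      · have hI1 : ind X ω j0 j n = 1 := by unfold ind; rw [if_neg hI]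
        rw [hI1]
        by_cases he : ej X ω j n = 0
        · have : ind X ω j0 (j + 1) n = 1 := by
            unfold ind
            rw [if_neg]
            rintro ⟨p, hp, hpn⟩
            rcases (pr_succ hj p).1 hp with hp | hp
            · exact hI ⟨p, hp, hpn⟩
            · unfold ej at he
              have h6 := Finset.card_eq_zero.1 he
              have h7 : p ∈ (bx X ω j).filter (fun p => p ∣ n) := Finset.mem_filter.2 ⟨hp, hpn⟩
              rw [h6] at h7
              exact absurd h7 (Finset.notMem_empty p)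
          rw [this, he]
          norm_num
        · have h6 : (1 : ℝ) ≤ (ej X ω j n : ℝ) := by
            exact_mod_cast Nat.one_le_iff_ne_zero.2 he
          linarith
    linarith
  · have e1 : ms X g (fun q => l1 q - bm X ω j l2 q) = ms X g l1 - ms X g (bm X ω j l2) := by
      unfold ms
      rw [← Finset.sum_sub_distrib]
      refine Finset.sum_congr rfl fun q _ => ?_
      ring
    rw [e1, hmb]
    set G := ∑ p ∈ bx X ω j, g p with hG
    have hG0 : 0 ≤ G := Finset.sum_nonneg fun p _ => (hg p).1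
    have hGε : |G - gm j| ≤ ε := hbox j hj (by omega)
    have hGle : G ≤ |gm j| + 1 := by
      have h1 := abs_le.1 hGε
      have h2 := le_abs_self (gm j)
      linarith
    have h1 : G * ms X g l2 ≤ G * (μ' + η2) := mul_le_mul_of_nonneg_left hm2 hG0
    have h2 : G * η2 ≤ η / 3 := by
      calc G * η2 ≤ (|gm j| + 2) * η2 := by
            apply mul_le_mul_of_nonneg_right _ hη2p.le
            linarith
        _ = η / 3 := by
            rw [hη2]
            have : (0 : ℝ) < |gm j| + 2 := by positivity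
            field_simp
    have h3 : (G - gm j) * μ' ≤ η / 3 := by
      calc (G - gm j) * μ' ≤ |(G - gm j) * μ'| := le_abs_self _
        _ = |G - gm j| * |μ'| := abs_mul _ _
        _ ≤ ε * (|μ'| + 1) := by
            apply mul_le_mul hGε _ (abs_nonneg _) hεp.le
            linarith
        _ ≤ η / (3 * (|μ'| + 1)) * (|μ'| + 1) := by
            apply mul_le_mul_of_nonneg_right hεd (by positivity)
        _ = η / 3 := by
            have : (0 : ℝ) < |μ'| + 1 := by positivity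
            field_simp
    have h4 : G * (μ' + η2) = gm j * μ' + (G - gm j) * μ' + G * η2 := by ring
    linarith

end Pool.Agent.Helper92.UP
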